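import Pool.Agent.W_a4f561_P73.PDef
import Pool.Agent.W_a4f561_P45.Mach45
import Pool.Agent.W_a4f561_P16.Num16
import Pool.Agent.W_a4f561_P8.Sep8
import Pool.Agent.W_a4f561_P25.Area

/-!
MP_a4f561_co, polylog pages (helper1): the state of the region machine and its invariants.
Text: team-store a4f561_h1_polylog.md. Law, paths in a cell, bad steps, LENS: W_a4f561_P73/PDef. Labels: W_a4f561_P45/Mach45.
Ranks and walks: W_a4f561_P8/Sep8. In the middle of a piece the drawn set is closed except that its last vertex goes to the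
start `c` of the next phase.
-/

set_option autoImplicit false

namespace Pool.Agent.W_a4f561_h1

open Pool.Agent.W_a4f561_h26 Pool.Agent.W_a4f561_P73 Pool.Agent.W_a4f561_P45 Pool.Agent.W_a4f561_P8
open Pool.Agent.W_a4f561_P16
open Pool.Agent.W_a4f561_P25 (Tc Ar Area)

variable {V : Type}

/-- The side: `false` is `G`, `true` is the mirror image. -/
def sG (G : Bars V) (b : Bool) : Bars V := cond b G.mir G

/-- The side of a state. -/
def sS (σ : St V) (b : Bool) : St V := cond b σ.mir σ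

/-- A valid record: pocket above the path of `R.q` (which is drawn up to the time `R.c`). `R.S` is not used. -/
structure IsRc (G : Bars V) (σ : St V) (R : Rec V) : Prop where
  q_mem : R.q ∈ σ.S
  hst : ∀ τ, τ ≤ R.c → host G σ.pi R.q τ ∈ σ.S
  b_le : G.b R.q ≤ R.a
  ac : R.a ≤ R.c
  cN : R.c ≤ G.N
  y_b : G.b R.y ≤ R.a
  y_t : R.c < G.t R.y
  ta : G.ub (host G σ.pi R.q R.a) R.a = R.y
  tc : G.ub (host G σ.pi R.q R.c) R.c = R.y
  ya : G.t (host G σ.pi R.q R.a) < G.t R.y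
  yc : G.t (host G σ.pi R.q R.c) < G.t R.y
  dec : ∀ u, G.inn u → R.a ≤ G.t u → G.t u < R.c → G.r (host G σ.pi R.q (G.t u)) < G.r u → G.up u = R.y →
    u ∈ σ.S ∪ σ.Dec ∧ σ.pi u = G.lo u

/-- The invariant of drawn set, declared vertices and records. `c` = start of the next phase (or anything if `S` is
closed). -/
structure WInv (G : Bars V) (σ : St V) (c : V) : Prop where
  bot_mem : G.bot ∈ σ.S
  top_mem : G.top ∈ σ.S
  ch : Ch G σ.pi
  cl : ∀ v ∈ σ.S, σ.pi v ∈ σ.S ∨ σ.pi v = c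
  lat : σ.Lat = ∅
  recD : ∀ R ∈ σ.RD, IsRc G σ R
  recU : ∀ R ∈ σ.RU, IsRc G.mir σ R
  decl : ∀ u ∈ σ.Dec, u ∉ σ.S → (∃ R ∈ σ.RD, DecBy G σ R u) ∨ (∃ R ∈ σ.RU, DecBy G.mir σ R u)

/-- The state of the machine. Labels `0 .. nl - 1` (`0` = root), phases `1 .. np`. -/
structure MS (V : Type) where
  /-- drawn set, declared vertices, choice function, records -/
  σ : St V
  /-- the cell (label) of every vertex -/
  cell : V → ℕ
  /-- number of labels -/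
  nl : ℕ
  /-- parent of a label -/
  par : ℕ → ℕ
  /-- window of a label -/
  s : ℕ → ℕ
  /-- window of a label -/
  e : ℕ → ℕ
  /-- rank of a label: rank of the root of its phase `+ 1` -/
  rk : ℕ → ℕ
  /-- phase which created the label -/
  ph : ℕ → ℕ
  /-- side on which it was created (`true` = mirror) -/
  sd : ℕ → Bool
  /-- number of phases -/
  np : ℕ
  /-- phase of a drawn vertex -/
  phs : V → ℕ
  /-- cell in which the phase was drawn -/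
  lc : ℕ → ℕ
  /-- start of the phase -/
  st : ℕ → V
  /-- root of the piece of the phase -/
  rt : ℕ → V
  /-- events: phase, side, kind (`true` = beta), vertex, deadline -/
  ev : ℕ → Bool → Bool → V → V → Prop

/-- The class of a label: phase and side. -/
def MS.cls (X : MS V) (i : ℕ) : ℕ × Bool := (X.ph i, X.sd i)

/-- All vertices (drawn or not) with label below `i`. -/
def MS.C (X : MS V) (i : ℕ) : Set V := {v | Anc X.par i (X.cell v)}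

/-- The cell `i`: vertices which are not drawn. -/
def MS.D (X : MS V) (i : ℕ) : Set V := {v | v ∉ X.σ.S ∧ X.cell v = i}

/-- The vertices of the phase `k`. -/
def MS.P (G : Bars V) (X : MS V) (k : ℕ) : Set V := {v | v ∈ X.σ.S ∧ G.inn v ∧ X.phs v = k}

/-- The part of the creating phase which is allowed as exit of the label `i`. -/
def MS.bd (G : Bars V) (X : MS V) (i : ℕ) : Set V := {v | v ∈ X.P G (X.ph i) ∧ G.t v ≤ X.e i}

/-- The exits of the label `i`: `bd i` and the earlier siblings. -/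
def MS.Ex (G : Bars V) (X : MS V) (i : ℕ) : Set V :=
  {v | v ∈ X.bd G i ∨ ∃ j, 1 ≤ j ∧ j < i ∧ X.cls j = X.cls i ∧ Anc X.par j (X.cell v)}

/-- The exits of the cell `i`. For `i = 0` all vertices outside of the cell. -/
def MS.E (G : Bars V) (X : MS V) (i : ℕ) : Set V := {v | (v ∈ X.C i ∨ v ∈ X.Ex G i) ∧ v ∉ X.D i}

/-- The heads of the event `(k, v)`: the short heads for `k = true`, the first long head for `k = false`. -/
def Hd (G : Bars V) (k : Bool) (v y : V) : Prop := (k = true ∧ Sh G v y) ∨ (k = false ∧ y = G.flh v)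

/-- The promise `(y, w)` of the phase `k`, side `b` is kept. -/
def MS.Kept (G : Bars V) (X : MS V) (k : ℕ) (b : Bool) (w y : V) : Prop :=
  (y ∈ X.P G k ∧ G.t y ≤ G.t w) ∨
    ∃ i, 1 ≤ i ∧ X.ph i = k ∧ X.sd i = b ∧ X.e i ≤ G.t w ∧ Anc X.par i (X.cell y)

/-- Everything which is reached from vertices of rank `< k`. -/
def Low (G : Bars V) (rnk : V → ℕ) (π : V → V) (k : ℕ) : Set V :=
  {w | w = G.bot ∨ w = G.top ∨ ∃ u, rnk u < k ∧ Orb π u w}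

/-- `e` is the exit of the route of `z` from `D`. -/
def Exi (D : Set V) (G : Bars V) (π : V → V) (z e : V) : Prop :=
  Orb π z e ∧ e ∉ D ∧ ∀ v, Orb π z v → G.t v < G.t e → v ∈ D

section pr

variable [Fintype V] [DecidableEq V]

/-- The data of a phase given by the trunk lemma: route of `z` for the coins `ω` in the cell `D`, exit `e`. -/
structure TD (G : Bars V) (σ : St V) (D E : Set V) (δ : ℝ) (N : ℕ) (ω : V × Bool → Bool) (z e : V) : Prop where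
  exi : Exi D G (law G σ ω) z e
  eE : e ∈ E
  nD : ∀ w, PD G D (law G σ ω) z w → bcnt G σ D δ ω z w ≤ N
  nU : ∀ w, PD G D (law G σ ω) z w → bcnt G.mir σ.mir D δ ω z w ≤ N

/-- `P_T(y)`: the route of `y` (old law) comes to the phase `B` not later than `T`, inside `D` before. -/
noncomputable def Pk (G : Bars V) (σ : St V) (D B : Set V) (T : ℕ) (y : V) : ℝ :=
  pr (fun _ => none) (fun ω' => LV G (D \ B) {v | v ∈ B ∧ G.t v ≤ T} (law G σ ω') y)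

/-- `v` carries an event of the kind `k` (side `G`). -/
def Ob (G : Bars V) (σ : St V) (D : Set V) (ω : V × Bool → Bool) (z : V) (k : Bool) (v : V) : Prop :=
  DS G σ D ω z v ∧ ((k = true ∧ v ∉ σ.Dec ∧ G.zz v = G.lo v) ∨
    (k = false ∧ (∀ v', DS G σ D ω z v' → G.t v' < G.t v → G.flh v' ≠ G.flh v) ∧ ¬ fb G σ v))

/-- The path `B` of the phase. -/
def Bp (G : Bars V) (σ : St V) (D : Set V) (ω : V × Bool → Bool) (z : V) : Set V :=
  {v | PD G D (law G σ ω) z v}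

/-- `w` is the deadline of the event `(k, v)`: the first vertex of the phase after `v` for which all heads have
`P_(t w) ≥ δ`. -/
def Dl (G : Bars V) (σ : St V) (D : Set V) (δ : ℝ) (ω : V × Bool → Bool) (z : V) (k : Bool) (v w : V) : Prop :=
  Ob G σ D ω z k v ∧ w ∈ Bp G σ D ω z ∧ G.t v < G.t w ∧
    (∀ y, Hd G k v y → δ ≤ Pk G σ D (Bp G σ D ω z) (G.t w) y) ∧
    ∀ w', w' ∈ Bp G σ D ω z → G.t v < G.t w' → G.t w' < G.t w →
      ∃ y, Hd G k v y ∧ Pk G σ D (Bp G σ D ω z) (G.t w') y < δ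

/-- The state after drawing the phase and declaring its pockets. `vl` = last vertex of the phase, `e` = its exit. -/
structure Dr1 (G : Bars V) (σ : St V) (D : Set V) (ω : V × Bool → Bool) (z e vl : V) (σ1 : St V) : Prop where
  vlB : vl ∈ Bp G σ D ω z
  vle : law G σ ω vl = e
  inv : WInv G σ1 e
  S : ∀ v, v ∈ σ1.S ↔ v ∈ σ.S ∨ v ∈ Bp G σ D ω z
  piO : ∀ v ∈ σ.S ∪ σ.Dec, σ1.pi v = σ.pi v
  piB : ∀ v ∈ Bp G σ D ω z, σ1.pi v = law G σ ω v
  Dec : σ.Dec ⊆ σ1.Dec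
  decN : ∀ u ∈ σ1.Dec, u ∉ σ.Dec → u ∉ σ1.S ∧ Area G σ1.pi z (G.t vl) u
  RD : σ.RD ⊆ σ1.RD
  RU : σ.RU ⊆ σ1.RU
  newD : ∀ R ∈ σ1.RD, R ∉ σ.RD → R.q = z ∧ Tc G σ1.pi z (G.t vl) R.y R.a ∧ Tc G σ1.pi z (G.t vl) R.y R.c
  newU : ∀ R ∈ σ1.RU, R ∉ σ.RU → R.q = z ∧ Tc G.mir σ1.pi z (G.t vl) R.y R.a ∧
    Tc G.mir σ1.pi z (G.t vl) R.y R.c
  exD : ∀ y a c, a ≤ c → Tc G σ1.pi z (G.t vl) y a → Tc G σ1.pi z (G.t vl) y c →
    ∃ R ∈ σ1.RD, R.q = z ∧ R.y = y ∧ R.a ≤ a ∧ c ≤ R.c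
  exU : ∀ y a c, a ≤ c → Tc G.mir σ1.pi z (G.t vl) y a → Tc G.mir σ1.pi z (G.t vl) y c →
    ∃ R ∈ σ1.RU, R.q = z ∧ R.y = y ∧ R.a ≤ a ∧ c ≤ R.c
  noS : ∀ u ∈ σ1.S, ¬ Area G σ1.pi z (G.t vl) u

/-- The state of the machine after the draw: new phase `np + 1` with the set `B`, root `r`, start `z`; the areas `A` are
relabelled. -/
noncomputable def MS.draw (X : MS V) (σ1 : St V) (B A : Set V) (z r : V) : MS V := by
  classical
  exact
  { X with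
    σ := σ1
    cell := fun u => if u ∈ A then X.cell z else X.cell u
    np := X.np + 1
    phs := fun u => if u ∈ B then X.np + 1 else X.phs u
    lc := fun k => if k = X.np + 1 then X.cell z else X.lc k
    st := fun k => if k = X.np + 1 then z else X.st k
    rt := fun k => if k = X.np + 1 then r else X.rt k }

/-- The labels of one side of one phase `B` in the cell `D1` (after the draw). -/
structure Fam (G : Bars V) (σ1 : St V) (D1 B : Set V) (κ : ℝ) (M q : ℕ) (F : ℕ → Set V) (s e : ℕ → ℕ) :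
    Prop where
  sub : ∀ l, l < q → F l ⊆ D1
  dis : ∀ l l', l < q → l' < q → l ≠ l' → ∀ u ∈ F l, u ∉ F l'
  tm : ∀ l, l < q → ∀ u ∈ F l, s l < G.t u ∧ G.t u < e l
  mono : ∀ l l', l ≤ l' → l' < q → e l ≤ e l'
  eB : ∀ l, l < q → ∃ w ∈ B, G.t w = e l
  suc : ∀ l, l < q → ∀ u ∈ F l, κ ≤ pr (fun _ => none)
    (fun ω => LV G (F l) {v | (v ∈ B ∧ G.t v ≤ e l) ∨ ∃ l' < l, v ∈ F l'} (law G σ1 ω) u)
  lens : ∀ l, l < q → LENS G σ1 (F l) (s l)
  opn : ∀ τ, ∀ P : Finset ℕ, (∀ l ∈ P, l < q ∧ s l < τ ∧ τ < e l) → P.card ≤ M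

/-- Add the labels of a family (phase `k`, side `b`, parent `i0`, rank `ρ`) and the events `evn`. -/
noncomputable def MS.add (Y : MS V) (k : ℕ) (b : Bool) (i0 ρ q : ℕ) (F : ℕ → Set V) (s e : ℕ → ℕ)
    (evn : Bool → V → V → Prop) : MS V := by
  classical
  exact
  { Y with
    cell := fun u => if h : ∃ l, l < q ∧ u ∈ F l then Y.nl + h.choose else Y.cell u
    nl := Y.nl + q
    par := fun i => if Y.nl ≤ i ∧ i < Y.nl + q then i0 else Y.par i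
    s := fun i => if Y.nl ≤ i ∧ i < Y.nl + q then s (i - Y.nl) else Y.s i
    e := fun i => if Y.nl ≤ i ∧ i < Y.nl + q then e (i - Y.nl) else Y.e i
    rk := fun i => if Y.nl ≤ i ∧ i < Y.nl + q then ρ else Y.rk i
    ph := fun i => if Y.nl ≤ i ∧ i < Y.nl + q then k else Y.ph i
    sd := fun i => if Y.nl ≤ i ∧ i < Y.nl + q then b else Y.sd i
    ev := fun k' b' kd v w => if k' = k ∧ b' = b then evn kd v w else Y.ev k' b' kd v w }

/-- The invariant without own cost of the phase `k0` (take `k0 = 0` for the full invariant). -/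
structure WI (G : Bars V) (rnk : V → ℕ) (N k0 : ℕ) (X : MS V) (c : V) : Prop where
  inv : WInv G X.σ c
  lab : Labs X.par X.cls X.s X.e X.rk (2 * N + 2)
  par_lt : ∀ i, 1 ≤ i → X.par i < i
  s0 : X.s 0 = 0
  rk0 : X.rk 0 = 0
  dflt : ∀ i, X.nl ≤ i → X.par i = 0 ∧ X.ph i = 0 ∧ X.e i = 0
  nl_pos : 1 ≤ X.nl
  cell_lt : ∀ v, X.cell v < X.nl
  ph_rng : ∀ i, 1 ≤ i → i < X.nl → 1 ≤ X.ph i ∧ X.ph i ≤ X.np
  lab_par : ∀ i, 1 ≤ i → i < X.nl → X.par i = X.lc (X.ph i)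
  lab_rk : ∀ i, 1 ≤ i → i < X.nl → X.rk i = rnk (X.rt (X.ph i)) + 1
  lab_e : ∀ i, 1 ≤ i → i < X.nl → ∃ v ∈ X.P G (X.ph i), G.t v = X.e i
  lc_lt : ∀ k, 1 ≤ k → k ≤ X.np → X.lc k < X.nl
  phs_rng : ∀ v ∈ X.σ.S, G.inn v → 1 ≤ X.phs v ∧ X.phs v ≤ X.np
  cellS : ∀ v ∈ X.σ.S, G.inn v → X.cell v = X.lc (X.phs v)
  I1 : ∀ v, v ∉ X.σ.S → kap (Fintype.card V) (X.rk (X.cell v)) ≤
    pr (fun _ => none) (fun ω => LV G (X.D (X.cell v)) (X.E G (X.cell v)) (law G X.σ ω) v)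
  I2 : ∀ i, 1 ≤ i → ∀ v ∈ X.σ.S, G.inn v → v ∈ X.C i → X.σ.pi v ∈ X.C i ∨ X.σ.pi v ∈ X.Ex G i
  I3 : ∀ i, 1 ≤ i → ∀ v ∈ X.C i, X.s i < G.t v ∧ G.t v < X.e i
  lens : ∀ i, LENS G X.σ (X.D i) (X.s i)
  evd : ∀ k b kd v w, X.ev k b kd v w → 1 ≤ k ∧ k ≤ X.np ∧ v ∈ X.P G k ∧ (sG G b).lo v ∈ X.P G k ∧
    X.σ.pi v = (sG G b).lo v ∧ w ∈ X.P G k ∧ G.t v < G.t w
  cust : ∀ k b kd v w, X.ev k b kd v w → ∀ y, Hd (sG G b) kd v y → X.Kept G k b w y
  own : ∀ k, 1 ≤ k → k ≤ X.np → k ≠ k0 → ∀ π, Fin' G X.σ π →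
    (∀ b kd v w, X.ev k b kd v w → ∀ y, Hd (sG G b) kd v y → ∃ u ∈ X.P G k, G.t u ≤ G.t w ∧ Orb π y u) →
    ∀ b, CB (sG G b) π (X.P G k) (3 * N + 3)
  root : ∀ v ∈ X.σ.S, G.inn v → PD G X.σ.S X.σ.pi (X.rt (X.phs v)) v
  rtS : ∀ k, 1 ≤ k → k ≤ X.np → X.rt k ∈ X.σ.S ∧ G.inn (X.rt k) ∧ X.st k ∈ X.P G k
  win : ∀ k, 1 ≤ k → k ≤ X.np → 1 ≤ X.lc k → X.s (X.lc k) < G.t (X.st k) ∧ G.t (X.st k) < X.e (X.lc k)
  mv : ∀ k, 1 ≤ k → k + 1 ≤ X.np → X.rt k = X.rt (k + 1) → Mv X.par X.cls (X.lc k) (X.lc (k + 1)) ∧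
    G.t (X.st k) ≤ G.t (X.st (k + 1))
  cont : ∀ k l m, 1 ≤ k → k ≤ l → l ≤ m → m ≤ X.np → X.rt k = X.rt m → X.rt l = X.rt k
  low : ∀ v ∈ X.σ.S, G.inn v → v ∉ Low G rnk X.σ.pi (rnk (X.rt (X.phs v)))
  wlk : ∀ v, v ∉ X.σ.S → ∀ i, 1 ≤ i → v ∈ X.C i → ∃ w ∈ X.σ.S, G.inn w ∧
    X.rt (X.phs w) = X.rt (X.ph i) ∧ Walk G (Low G rnk X.σ.pi (rnk (X.rt (X.ph i)))) v w

/-- The situation inside of the piece of the root `r`: `S0` was drawn before the piece, the next phase starts at `c`. -/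
structure PS (G : Bars V) (rnk : V → ℕ) (X : MS V) (S0 : Set V) (r c : V) : Prop where
  sub : S0 ⊆ X.σ.S
  cl0 : ∀ v ∈ S0, X.σ.pi v ∈ S0
  bot0 : G.bot ∈ S0
  top0 : G.top ∈ S0
  low0 : ∀ u, rnk u < rnk r → u ∈ S0
  rts : ∀ k, 1 ≤ k → k ≤ X.np → rnk (X.rt k) ≤ rnk r
  rS : r ∉ S0
  orb : Orb X.σ.pi r c
  pc : ∀ v, Orb X.σ.pi r v → G.t v < G.t c → v ∈ X.σ.S ∧ v ∉ S0
  cp : ∀ v ∈ X.σ.S, v ∉ S0 → Orb X.σ.pi r v ∧ G.t v < G.t c ∧ X.rt (X.phs v) = r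
  rt0 : ∀ v ∈ S0, G.inn v → X.rt (X.phs v) ≠ r
  le : ∀ i, 1 ≤ i → i < X.nl → X.rt (X.ph i) = r → X.e i < G.t c
  nx : c ≠ r → c ∉ X.σ.S → 1 ≤ X.np ∧ X.rt X.np = r ∧ Mv X.par X.cls (X.lc X.np) (X.cell c) ∧
    G.t (X.st X.np) ≤ G.t c
  nr : c = r → ∀ k, 1 ≤ k → k ≤ X.np → X.rt k ≠ r

end pr

end Pool.Agent.W_a4f561_h1
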