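import Pool.Agent.W_a4f561_h1.Mir
import Pool.Agent.W_a4f561_P2.AddWI
import Pool.Agent.W_a4f561_P31.FamPath
import Pool.Agent.W_a4f561_P98.FamI98
import Pool.Agent.W_a4f561_P73.AddPS

/-!
MP_a4f561_co, polylog pages: step (5) in the form of the skeleton (helper1), from helper2's `add_WI'`.
-/

set_option autoImplicit false

namespace Pool.Agent.W_a4f561_h1

open Pool.Agent.W_a4f561_h26 Pool.Agent.W_a4f561_P73 Pool.Agent.W_a4f561_P45 Pool.Agent.W_a4f561_P8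
open Pool.Agent.W_a4f561_P16

variable {V : Type} [Fintype V] [DecidableEq V] {G : Bars V} {rnk : V → ℕ} {N : ℕ}

/-- (5) ADD the labels of one side. -/
theorem add_WI {Y : MS V} {c r : V} {b : Bool} {κ : ℝ} {q : ℕ} {F : ℕ → Set V} {s e : ℕ → ℕ}
    {evn : Bool → V → V → Prop} (hW : WI G rnk N Y.np Y c) (hnp : 1 ≤ Y.np) (hr : Y.rt Y.np = r)
    (hrk : Y.rk (Y.lc Y.np) ≤ rnk r) (hcl : ∀ i, 1 ≤ i → Y.cls i ≠ (Y.np, b)) (hκ0 : 0 < κ)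
    (hκ : kap (Fintype.card V) (rnk r + 1) ≤ κ)
    (hF : Fam G Y.σ (Y.D (Y.lc Y.np)) (Y.P G Y.np) κ (2 * N + 2) q F s e)
    (hev : ∀ kd v w, evn kd v w → v ∈ Y.P G Y.np ∧ (sG G b).lo v ∈ Y.P G Y.np ∧ Y.σ.pi v = (sG G b).lo v ∧
      w ∈ Y.P G Y.np ∧ G.t v < G.t w)
    (hhd : ∀ kd v w, evn kd v w → ∀ y, Hd (sG G b) kd v y →
      (y ∈ Y.P G Y.np ∧ G.t y ≤ G.t w) ∨ ∃ l, l < q ∧ e l ≤ G.t w ∧ y ∈ F l)
    (hlo : ∀ v ∈ Low G rnk Y.σ.pi (rnk r), v ∈ Y.σ.S) :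
    WI G rnk N Y.np (Y.add Y.np b (Y.lc Y.np) (rnk r + 1) q F s e evn) c := by
  have hD1 : ∀ v ∈ Y.D (Y.lc Y.np), v ∉ Y.σ.S := fun v hv => hv.1
  have hinn : ∀ v ∈ Y.D (Y.lc Y.np), G.inn v := fun v hv => inn_of_notS (winv_base hW.inv) hv.1
  refine Pool.Agent.W_a4f561_P2.add_WI' hW hnp hr hrk hcl hκ hF hev hhd hlo ?_ ?_
  · intro l hl u hu
    obtain ⟨π, hπ, w, hw, _, h1, h2⟩ := Pool.Agent.W_a4f561_P31.fam_path hW.inv hκ0 hD1 hF hl hu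
    refine ⟨π, hπ.1, w, hw, h1, fun v hv ht => ?_⟩
    obtain ⟨l', h3, h4⟩ := h2 v hv ht
    exact hD1 v (hF.sub l' (lt_of_le_of_lt h3 hl) h4)
  · refine Pool.Agent.W_a4f561_P98.lens_rest hinn (hW.lens _) ?_
    rintro u ⟨l, hl, hu⟩
    obtain ⟨π, hπ, w, hw, _, h1, h2⟩ := Pool.Agent.W_a4f561_P31.fam_path hW.inv hκ0 hD1 hF hl hu
    refine ⟨π, hπ, w, fun h => h.1 hw.1, h1, G.t_in w hw.2.1.1 hw.2.1.2, fun v hv ht => ?_⟩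
    obtain ⟨l', h3, h4⟩ := h2 v hv ht
    exact ⟨l', lt_of_le_of_lt h3 hl, h4⟩

end Pool.Agent.W_a4f561_h1
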