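import Pool.Agent.W_a4f561_h1.Def
import Pool.Agent.W_a4f561_P73.Trk73
import Pool.Agent.W_a4f561_P25.Dr1

/-!
MP_a4f561_co, polylog pages (helper1): mirror images of the notions of Def, the trunk and small facts on the phase.
-/

set_option autoImplicit false

namespace Pool.Agent.W_a4f561_h1

open Pool.Agent.W_a4f561_h26 Pool.Agent.W_a4f561_P73 Pool.Agent.W_a4f561_P45 Pool.Agent.W_a4f561_P8
open Pool.Agent.W_a4f561_P16
open Pool.Agent.W_a4f561_P25 (Tc Ar Area)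

variable {V : Type} {G : Bars V}

theorem winv_base {σ : St V} {c : V} (h : WInv G σ c) : Base0 G σ := ⟨h.bot_mem, h.top_mem, h.ch⟩

theorem winv_mir {σ : St V} {c : V} (h : WInv G σ c) : WInv G.mir σ.mir c :=
  Pool.Agent.W_a4f561_P25.W.winv_of (Pool.Agent.W_a4f561_P25.W.wi_of h).mir h.lat

theorem winv_hd {σ : St V} {c : V} (h : WInv G σ c) : HD G σ ∧ HD G.mir σ.mir :=
  ⟨(Pool.Agent.W_a4f561_P25.W.wi_of h).hD, (Pool.Agent.W_a4f561_P25.W.wi_of h).mir.hD⟩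

theorem bp_mir {σ : St V} {c : V} (h : WInv G σ c) {D : Set V} {ω : V × Bool → Bool} {z : V} :
    Bp G.mir σ.mir D ω z = Bp G σ D ω z := by
  unfold Bp
  rw [law_mir0 (winv_base h)]
  rfl

theorem exi_mir {D : Set V} {π : V → V} {z e : V} : Exi D G.mir π z e ↔ Exi D G π z e := Iff.rfl

theorem dr1_mir {σ σ1 : St V} {c : V} {D : Set V} {ω : V × Bool → Bool} {z e vl : V} (h : WInv G σ c)
    (hD : Dr1 G σ D ω z e vl σ1) : Dr1 G.mir σ.mir D ω z e vl σ1.mir where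
  vlB := by rw [bp_mir h]; exact hD.vlB
  vle := by rw [law_mir0 (winv_base h)]; exact hD.vle
  inv := winv_mir hD.inv
  S := by rw [bp_mir h]; exact hD.S
  piO := hD.piO
  piB := by rw [bp_mir h, law_mir0 (winv_base h)]; exact hD.piB
  Dec := hD.Dec
  decN := fun u h1 h2 => ⟨(hD.decN u h1 h2).1, (hD.decN u h1 h2).2.mir⟩
  RD := hD.RU
  RU := hD.RD
  newD := hD.newU
  newU := by rw [mir_mir]; exact hD.newD
  exD := hD.exU
  exU := by rw [mir_mir]; exact hD.exD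
  noS := fun u hu hA => hD.noS u hu (Pool.Agent.W_a4f561_P25.Area.mir_iff.1 hA)

section pr

variable [Fintype V] [DecidableEq V]

theorem td_mir {σ : St V} {c : V} {D E : Set V} {δ : ℝ} {N : ℕ} {ω : V × Bool → Bool} {z e : V} (h : WInv G σ c)
    (hT : TD G σ D E δ N ω z e) : TD G.mir σ.mir D E δ N ω z e where
  exi := by rw [law_mir0 (winv_base h)]; exact hT.exi
  eE := hT.eE
  nD := by rw [law_mir0 (winv_base h)]; exact hT.nU
  nU := by
    rw [law_mir0 (winv_base h)]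
    intro w hw
    have h1 : σ.mir.mir = σ := rfl
    rw [mir_mir, h1]
    exact hT.nD w hw

theorem fam_mir {σ1 : St V} {c : V} (h : WInv G σ1 c) {D1 B : Set V} {κ : ℝ} {M q : ℕ} {F : ℕ → Set V} {s e : ℕ → ℕ}
    (hF : Fam G.mir σ1.mir D1 B κ M q F s e) : Fam G σ1 D1 B κ M q F s e where
  sub := hF.sub
  dis := hF.dis
  tm := hF.tm
  mono := hF.mono
  eB := hF.eB
  suc := by
    intro l hl u hu
    have h1 := hF.suc l hl u hu
    simp only [law_mir0 (winv_base h)] at h1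
    exact h1
  lens := fun l hl => by
    have h1 := Pool.Agent.W_a4f561_P70.lens_mir (hF.lens l hl)
    rw [mir_mir] at h1
    exact h1
  opn := hF.opn

/-- (1) TRUNK on `WInv`. -/
theorem trunk {N : ℕ} {σ : St V} {D E : Set V} {s0 : ℕ} {z c : V} (hI : WInv G σ c) (hDS : ∀ v ∈ D, v ∉ σ.S)
    (hL : LENS G σ D s0) (hs : ∀ v ∈ D, s0 < G.t v) (hz : z ∈ D) {δ κ : ℝ} (hδ : 0 ≤ δ)
    (hκ : κ ≤ pr (fun _ => none) (fun ω => LV G D E (law G σ ω) z))
    (hN : 2 * (Fintype.card V : ℝ) * ((100 / 101 : ℝ) ^ (N + 1) + 2000 * (Fintype.card V : ℝ) ^ 2 * δ) < κ) :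
    ∃ ω e, TD G σ D E δ N ω z e := by
  obtain ⟨ω, ⟨e, h1, h2, h3, h4⟩, h5⟩ := Pool.Agent.W_a4f561_P73.trunk (winv_base hI) (winv_hd hI).1 (winv_hd hI).2
    hDS hL hs hz hδ hκ hN
  exact ⟨ω, e, ⟨h3, h2, h4⟩, h1, fun w hw => (h5 w hw).1, fun w hw => (h5 w hw).2⟩

/-- The invariant without and with own cost. -/
theorem WI.full {rnk : V → ℕ} {N k0 : ℕ} {X : MS V} {c : V} (h : WI G rnk N k0 X c)
    (ho : 1 ≤ k0 → ∀ π, Fin' G X.σ π →
      (∀ b kd v w, X.ev k0 b kd v w → ∀ y, Hd (sG G b) kd v y → ∃ u ∈ X.P G k0, G.t u ≤ G.t w ∧ Orb π y u) →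
      ∀ b, CB (sG G b) π (X.P G k0) (3 * N + 3)) : WI G rnk N 0 X c :=
  { h with
    own := by
      intro k h1 h2 _ π hπ hp b
      by_cases hk : k = k0
      · subst hk
        exact ho h1 π hπ hp b
      · exact h.own k h1 h2 hk π hπ hp b }

end pr

end Pool.Agent.W_a4f561_h1
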