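import Pool.Agent.W_a4f561_h1.Mir
import Pool.Agent.W_a4f561_P34.DrawPS34
import Pool.Agent.W_a4f561_P28.OwnC
import Pool.Agent.W_a4f561_h1.AddW
import Pool.Agent.W_a4f561_P13.Piece13
import Pool.Agent.W_a4f561_P45.RkCell
import Pool.Agent.W_a4f561_P73.AddPS

/-!
MP_a4f561_co, polylog pages (helper1): one phase, from the steps of the skeleton.
-/

set_option autoImplicit false

namespace Pool.Agent.W_a4f561_h1

open Pool.Agent.W_a4f561_h26 Pool.Agent.W_a4f561_P73 Pool.Agent.W_a4f561_P45 Pool.Agent.W_a4f561_P8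
open Pool.Agent.W_a4f561_P16
open Pool.Agent.W_a4f561_P25 (Tc Ar Area)

variable {V : Type} [Fintype V] [DecidableEq V] {G : Bars V} {rnk : V → ℕ} {N : ℕ}

/-- The start is on the path. -/
theorem bp_start {σ : St V} {D : Set V} {ω : V × Bool → Bool} {z : V} (hch : Ch G (law G σ ω)) (hz : z ∈ D) :
    z ∈ Bp G σ D ω z := by
  refine ⟨orb_refl _ _, fun v hv ht => ?_⟩
  have h1 := orb_t hch hv
  rw [G.t_inj (le_antisymm ht h1)]
  exact hz

/-- The next vertex of the path. -/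
theorem bp_step {D : Set V} {ρ : V → V} {z v : V} (hch : Ch G ρ) (hv : PD G D ρ z v) (hn : ρ v ∈ D) :
    PD G D ρ z (ρ v) := by
  refine ⟨orb_step hv.1, fun u hu ht => ?_⟩
  by_cases h1 : G.t u ≤ G.t v
  · exact hv.2 u hu h1
  · rw [not_le] at h1
    have h2 : Orb ρ v u := orb_comp hch hv.1 hu h1.le
    have h3 : Orb ρ (ρ v) u := by
      obtain ⟨k, hk⟩ := h2
      cases k with
      | zero =>
        rw [Function.iterate_zero, id] at hk
        rw [hk] at h1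
        exact absurd h1 (lt_irrefl _)
      | succ k => exact ⟨k, by rw [← hk, Function.iterate_succ_apply]⟩
    have h4 := orb_t hch h3
    rw [G.t_inj (le_antisymm ht h4)]
    exact hn

/-- The data of an event. -/
theorem dl_data {σ σ1 : St V} {c : V} {D : Set V} {δ : ℝ} {ω : V × Bool → Bool} {z e vl : V} (hI : WInv G σ c)
    (hD : Dr1 G σ D ω z e vl σ1) (b : Bool) {kd : Bool} {v w : V}
    (h : Dl (sG G b) (sS σ b) D δ ω z kd v w) :
    v ∈ Bp G σ D ω z ∧ (sG G b).lo v ∈ Bp G σ D ω z ∧ σ1.pi v = (sG G b).lo v ∧ w ∈ Bp G σ D ω z ∧ G.t v < G.t w := by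
  have hb := winv_base hI
  have key : ∀ (H : Bars V) (τ : St V), Ch H (law H τ ω) → Dl H τ D δ ω z kd v w →
      v ∈ Bp H τ D ω z ∧ H.lo v ∈ Bp H τ D ω z ∧ law H τ ω v = H.lo v ∧ w ∈ Bp H τ D ω z ∧ H.t v < H.t w := by
    intro H τ hch h
    obtain ⟨⟨⟨h1, h2, h3⟩, _⟩, h4, h5, _⟩ := h
    refine ⟨h1, ?_, h2, h4, h5⟩
    have h6 := bp_step hch h1 (by rw [h2]; exact h3)
    rw [h2] at h6
    exact h6
  cases b with
  | false =>
    obtain ⟨h1, h2, h3, h4, h5⟩ := key G σ (law_ch hb ω) h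
    exact ⟨h1, h2, (hD.piB v h1).trans h3, h4, h5⟩
  | true =>
    obtain ⟨h1, h2, h3, h4, h5⟩ := key G.mir σ.mir (by rw [law_mir0 hb]; exact ch_mir.2 (law_ch hb ω)) h
    rw [bp_mir hI] at h1 h2 h4
    rw [law_mir0 hb] at h3
    exact ⟨h1, h2, (hD.piB v h1).trans h3, h4, h5⟩

/-- The state after the draw. -/
noncomputable def X1 (G : Bars V) (X : MS V) (ω : V × Bool → Bool) (z r vl : V) (σ1 : St V) : MS V :=
  X.draw σ1 (Bp G X.σ (X.D (X.cell z)) ω z) {u | Area G σ1.pi z (G.t vl) u} z r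

/-- (7) ONE PHASE. -/
theorem phase (hr : Rks G rnk) {L R : ℕ} (hL : Fintype.card V ≤ 2 ^ L) (hR : ∀ v, rnk v < R) {X : MS V} {S0 : Set V}
    {r c : V} (hW : WI G rnk (NN L R) 0 X c) (hP : PS G rnk X S0 r c) (hc : c ∉ X.σ.S) :
    ∃ X' e, WI G rnk (NN L R) 0 X' e ∧ PS G rnk X' S0 r e ∧ G.t c < G.t e ∧ c ∈ X'.σ.S ∧ X.σ.S ⊆ X'.σ.S ∧
      (∀ u ∈ X.σ.S, X'.σ.pi u = X.σ.pi u) ∧ ∀ u ∈ X.σ.S, G.inn u → X'.rt (X'.phs u) = X.rt (X.phs u) := by
  classical
  have hI := hW.inv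
  have hb := winv_base hI
  have hn : 1 ≤ Fintype.card V := Fintype.card_pos_iff.2 ⟨c⟩
  have hri : G.inn r := ⟨fun h => hP.rS (h ▸ hP.bot0), fun h => hP.rS (h ▸ hP.top0)⟩
  set i0 := X.cell c with hi0
  have hcD : c ∈ X.D i0 := ⟨hc, rfl⟩
  have hrk : X.rk i0 ≤ rnk r := rk_cell hr hW hP hc
  have hkR : X.rk i0 ≤ R := hrk.trans (hR r).le
  -- the window of the cell
  have hwin : ∀ v, v ∉ X.σ.S → X.cell v = i0 → X.s i0 < G.t v := by
    intro v hv hv'
    rcases Nat.eq_zero_or_pos i0 with h0 | h0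
    · rw [h0, hW.s0]
      have hvi := inn_of_notS hb hv
      exact lt_of_lt_of_le (Nat.succ_le_iff.1 (G.b_in v hvi.1 hvi.2)) (G.bt v)
    · exact (hW.I3 i0 h0 v (by show Anc X.par i0 (X.cell v); rw [hv']; exact anc_refl _ _)).1
  obtain ⟨ω, e, hT⟩ := trunk hI (D := X.D i0) (E := X.E G i0) (fun v hv => hv.1) (hW.lens i0)
    (fun v hv => hwin v hv.1 hv.2) hcD (del_pos hn (X.rk i0)).le (hW.I1 c hc) (trunk_num hn hL hkR)
  obtain ⟨vl, σ1, hD⟩ := Pool.Agent.W_a4f561_P25.W.draw hr hW hP hri hc hT.exi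
  have hW1 : WI G rnk (NN L R) (X.np + 1) (X1 G X ω c r vl σ1) e :=
    Pool.Agent.W_a4f561_P34.draw_WI hW hP hc hT hD
  have hP1 : PS G rnk (X1 G X ω c r vl σ1) S0 r e :=
    Pool.Agent.W_a4f561_P34.draw_PS hW hP hc hT hD
  set B := Bp G X.σ (X.D i0) ω c with hB
  set Y := X1 G X ω c r vl σ1 with hY
  have hchl : Ch G (law G X.σ ω) := law_ch hb ω
  have hYσ : Y.σ = σ1 := rfl
  have hYnp : Y.np = X.np + 1 := rfl
  have hYlc : Y.lc Y.np = i0 := if_pos rfl
  have hYrt : Y.rt Y.np = r := if_pos rfl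
  have hBinn : ∀ v ∈ B, G.inn v ∧ v ∉ X.σ.S := by
    intro v hv
    have h1 : v ∉ X.σ.S := (PD.mem hv).1
    exact ⟨inn_of_notS hb h1, h1⟩
  have hYP : Y.P G Y.np = B := by
    ext v
    constructor
    · rintro ⟨h1, h2, h3⟩
      by_contra hv
      have h4 : Y.phs v = X.phs v := if_neg hv
      rcases (hD.S v).1 h1 with h5 | h5
      · have := (hW.phs_rng v h5 h2).2
        rw [h4, hYnp] at h3
        omega
      · exact hv h5
    · intro hv
      exact ⟨(hD.S v).2 (Or.inr hv), (hBinn v hv).1, if_pos hv⟩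
  have hYcell : ∀ v, Y.cell v = if Area G σ1.pi c (G.t vl) v then i0 else X.cell v := fun v => rfl
  have hD1 : ∀ u, u ∈ Y.D i0 ↔ u ∉ σ1.S ∧ (u ∈ X.D i0 ∨ Area G σ1.pi c (G.t vl) u) := by
    intro u
    constructor
    · rintro ⟨h1, h2⟩
      refine ⟨h1, ?_⟩
      rw [hYcell] at h2
      by_cases h3 : Area G σ1.pi c (G.t vl) u
      · exact Or.inr h3
      · rw [if_neg h3] at h2
        exact Or.inl ⟨fun h => h1 ((hD.S u).2 (Or.inl h)), h2⟩
    · rintro ⟨h1, h2 | h2⟩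
      · refine ⟨h1, ?_⟩
        rw [hYcell]
        split_ifs with h3
        · rfl
        · exact h2.2
      · refine ⟨h1, ?_⟩
        rw [hYcell, if_pos h2]
  have hlens1 : LENS G σ1 (Y.D i0) (X.s i0) := hW1.lens i0
  have hδ := del_pos hn (X.rk i0)
  have hs : ∀ v ∈ X.D i0, X.s i0 < G.t v := fun v hv => hwin v hv.1 hv.2
  obtain ⟨q, F, s, f, hF, hFs, hFh⟩ := Pool.Agent.W_a4f561_P98.fam hI (fun v hv => hv.1) hcD hs hT hD hD1 (hW.lens i0) hlens1 hδ
  obtain ⟨q', F', s', f', hF', hFs', hFh'⟩ := Pool.Agent.W_a4f561_P98.fam (winv_mir hI) (fun v hv => hv.1) hcD hs (td_mir hI hT)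
    (dr1_mir hI hD) (D1 := Y.D i0) (fun u => by
      rw [hD1 u]
      exact and_congr_right fun _ => or_congr_right Pool.Agent.W_a4f561_P25.Area.mir_iff.symm)
    (Pool.Agent.W_a4f561_P70.lens_mir (hW.lens i0)) (Pool.Agent.W_a4f561_P70.lens_mir hlens1) hδ
  rw [bp_mir hI] at hF' hFh'
  have hF'' := fam_mir hD.inv hF'
  have hκ0 : 0 < del (Fintype.card V) (X.rk i0) / (2 * (Fintype.card V : ℝ)) := by
    have : (0:ℝ) < Fintype.card V := by exact_mod_cast hn
    positivity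
  have hκ : kap (Fintype.card V) (rnk r + 1) ≤ del (Fintype.card V) (X.rk i0) / (2 * (Fintype.card V : ℝ)) := by
    rw [← kap_succ hn]
    exact kap_anti hn (by omega)
  -- the D-side
  have hev := fun b kd v w => @dl_data V _ _ G X.σ σ1 c (X.D i0) (del (Fintype.card V) (X.rk i0)) ω c e vl hI hD b kd v w
  have hcls : ∀ i, 1 ≤ i → ∀ b, Y.cls i ≠ (Y.np, b) := by
    intro i hi b hb'
    have h1 : Y.ph i = Y.np := (Prod.ext_iff.1 hb').1
    rcases lt_or_ge i X.nl with h2 | h2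
    · have h3 : X.ph i ≤ X.np := (hW.ph_rng i hi h2).2
      have h4 : Y.ph i = X.ph i := rfl
      omega
    · have h3 : X.ph i = 0 := (hW.dflt i h2).2.1
      have h4 : Y.ph i = X.ph i := rfl
      omega
  have hlow : ∀ v ∈ Low G rnk σ1.pi (rnk r), v ∈ σ1.S := fun v hv =>
    hP1.sub (low_sub hP1.cl0 hP1.bot0 hP1.top0 hP1.low0 hv)
  have hYc : e ∉ Y.D (Y.lc Y.np) := by
    rw [hYlc]
    intro he
    rcases ((hD1 e).1 he).2 with h1 | h1
    · exact hT.exi.2.1 h1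
    · have hvlN : G.t vl ≤ G.N := (G.t_in vl (hBinn vl hD.vlB).1.1 (hBinn vl hD.vlB).1.2).le
      have h2 := (h1.time hD.inv.ch hvlN).2
      have h3 := t_lt_ch hchl (hBinn vl hD.vlB).1
      rw [hD.vle] at h3
      omega
  have het : ∀ v ∈ Y.P G Y.np, G.t v < G.t e := by
    rw [hYP]
    intro v hv
    by_contra hcon
    rw [not_lt] at hcon
    exact hT.exi.2.1 (hv.2 e hT.exi.1 hcon)
  have hW2 : WI G rnk (NN L R) (X.np + 1) (Y.add Y.np false (Y.lc Y.np) (rnk r + 1) q F s f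
      (fun kd v w => Dl (sG G false) (sS X.σ false) (X.D i0) (del (Fintype.card V) (X.rk i0)) ω c kd v w)) e :=
    add_WI (κ := del (Fintype.card V) (X.rk i0) / (2 * (Fintype.card V : ℝ)))
    hW1 (by rw [hYnp]; omega) hYrt (by rw [hYlc]; exact hrk) (fun i hi => hcls i hi false) hκ0 hκ
    (by rw [hYlc, hYP]; exact hF)
    (fun kd v w h => by rw [hYP]; exact hev false kd v w h)
    (fun kd v w h y hy => by rw [hYP]; exact hFh kd v w h y hy) hlow
  have hP2 : PS G rnk (Y.add Y.np false (Y.lc Y.np) (rnk r + 1) q F s f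
      (fun kd v w => Dl (sG G false) (sS X.σ false) (X.D i0) (del (Fintype.card V) (X.rk i0)) ω c kd v w)) S0 r e :=
    Pool.Agent.W_a4f561_P73A.add_PS (κ := del (Fintype.card V) (X.rk i0) / (2 * (Fintype.card V : ℝ))) hW1 hP1 (by rw [hYnp]; omega) hYrt
      (by rw [hYlc, hYP]; exact hF) het hYc
  set Z := Y.add Y.np false (Y.lc Y.np) (rnk r + 1) q F s f
      (fun kd v w => Dl (sG G false) (sS X.σ false) (X.D i0) (del (Fintype.card V) (X.rk i0)) ω c kd v w) with hZ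
  have hZnp : Z.np = Y.np := rfl
  have hZσ : Z.σ = σ1 := rfl
  have hZlc : Z.lc Z.np = i0 := hYlc
  have hZP : Z.P G Z.np = B := hYP
  have hZrt : Z.rt Z.np = r := hYrt
  have hi0l : i0 < Y.nl := hW.cell_lt c
  have hZcell : ∀ v, (¬ ∃ l, l < q ∧ v ∈ F l) → Z.cell v = Y.cell v := fun v hv => dif_neg hv
  have hZcell' : ∀ v, (∃ l, l < q ∧ v ∈ F l) → Y.nl ≤ Z.cell v := by
    intro v hv
    have h1 : Z.cell v = Y.nl + hv.choose := dif_pos hv
    omega
  have hZD : ∀ u, u ∈ Z.D i0 ↔ u ∈ Y.D i0 ∧ ¬ ∃ l, l < q ∧ u ∈ F l := by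
    intro u
    constructor
    · rintro ⟨h1, h2⟩
      have h3 : ¬ ∃ l, l < q ∧ u ∈ F l := by
        intro h4
        have := hZcell' u h4
        omega
      exact ⟨⟨h1, by rw [← hZcell u h3]; exact h2⟩, h3⟩
    · rintro ⟨⟨h1, h2⟩, h3⟩
      exact ⟨h1, by rw [hZcell u h3]; exact h2⟩
  have hF2 : Fam G Z.σ (Z.D (Z.lc Z.np)) (Z.P G Z.np)
      (del (Fintype.card V) (X.rk i0) / (2 * (Fintype.card V : ℝ))) (2 * NN L R + 2) q' F' s' f' := by
    rw [hZlc, hZP]
    exact { hF'' with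
      sub := by
        intro l hl u hu
        refine (hZD u).2 ⟨hF''.sub l hl hu, ?_⟩
        rintro ⟨l', hl', hu'⟩
        have h1 := (hFs l' hl').2 u hu'
        have h2 := (hFs' l hl).2 u hu
        have h3 := (Pool.Agent.W_a4f561_B31.mir_r_lt G _ _).1 h2
        have h4 : G.r u < G.r (host G σ1.pi c (G.t u)) := h3
        omega }
  have hclsZ : ∀ i, 1 ≤ i → Z.cls i ≠ (Z.np, true) := by
    intro i hi hb'
    by_cases h1 : Y.nl ≤ i ∧ i < Y.nl + q
    · have h2 : Z.sd i = false := if_pos h1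
      have h3 : Z.sd i = true := (Prod.ext_iff.1 hb').2
      rw [h2] at h3
      exact absurd h3 (by decide)
    · have h2 : Z.ph i = Y.ph i := if_neg h1
      have h3 : Z.sd i = Y.sd i := if_neg h1
      refine hcls i hi true (Prod.ext ?_ ?_)
      · rw [← hZnp, ← (Prod.ext_iff.1 hb').1]
        exact h2.symm
      · rw [← (Prod.ext_iff.1 hb').2]
        exact h3.symm
  have hZrk : Z.rk (Z.lc Z.np) ≤ rnk r := by
    rw [hZlc]
    have h1 : Z.rk i0 = X.rk i0 := if_neg (by omega)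
    rw [h1]
    exact hrk
  have hZc : e ∉ Z.D (Z.lc Z.np) := by
    rw [hZlc]
    intro h1
    exact hYc (by rw [hYlc]; exact ((hZD e).1 h1).1)
  have hW3 : WI G rnk (NN L R) (X.np + 1) (Z.add Z.np true (Z.lc Z.np) (rnk r + 1) q' F' s' f'
      (fun kd v w => Dl (sG G true) (sS X.σ true) (X.D i0) (del (Fintype.card V) (X.rk i0)) ω c kd v w)) e :=
    add_WI (κ := del (Fintype.card V) (X.rk i0) / (2 * (Fintype.card V : ℝ)))
    hW2 (by rw [hZnp, hYnp]; omega) hZrt hZrk hclsZ hκ0 hκ hF2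
    (fun kd v w h => by rw [hZP]; exact hev true kd v w h)
    (fun kd v w h y hy => by rw [hZP]; exact hFh' kd v w h y hy) hlow
  have hP3 : PS G rnk (Z.add Z.np true (Z.lc Z.np) (rnk r + 1) q' F' s' f'
      (fun kd v w => Dl (sG G true) (sS X.σ true) (X.D i0) (del (Fintype.card V) (X.rk i0)) ω c kd v w)) S0 r e :=
    Pool.Agent.W_a4f561_P73A.add_PS (κ := del (Fintype.card V) (X.rk i0) / (2 * (Fintype.card V : ℝ))) hW2 hP2 (by rw [hZnp, hYnp]; omega) hZrt
      hF2 het hZc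
  refine ⟨_, e, hW3.full ?_, hP3, ?_, (hD.S c).2 (Or.inr (bp_start hchl hcD)), fun v hv => (hD.S v).2 (Or.inl hv),
    fun u hu => hD.piO u (Or.inl hu), fun u hu hui => ?_⟩
  · intro _ π hπ hk b
    have hP4 : (Z.add Z.np true (Z.lc Z.np) (rnk r + 1) q' F' s' f'
      (fun kd v w => Dl (sG G true) (sS X.σ true) (X.D i0) (del (Fintype.card V) (X.rk i0)) ω c kd v w)).P G (X.np + 1)
        = B := hYP
    rw [hP4] at hk ⊢
    refine Pool.Agent.W_a4f561_P28.own_cost hI (fun v hv => hv.1) hcD hT hD hπ ?_ b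
    intro b' kd v w hd y hy
    refine hk b' kd v w ?_ y hy
    cases b' with
    | true =>
      have h1 : (Z.add Z.np true (Z.lc Z.np) (rnk r + 1) q' F' s' f'
        (fun kd v w => Dl (sG G true) (sS X.σ true) (X.D i0) (del (Fintype.card V) (X.rk i0)) ω c kd v w)).ev
        (X.np + 1) true kd v w = Dl (sG G true) (sS X.σ true) (X.D i0) (del (Fintype.card V) (X.rk i0)) ω c kd v w :=
        if_pos ⟨rfl, rfl⟩
      rw [h1]
      exact hd
    | false =>
      have h1 : (Z.add Z.np true (Z.lc Z.np) (rnk r + 1) q' F' s' f'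
        (fun kd v w => Dl (sG G true) (sS X.σ true) (X.D i0) (del (Fintype.card V) (X.rk i0)) ω c kd v w)).ev
        (X.np + 1) false kd v w = Z.ev (X.np + 1) false kd v w := if_neg (fun h => absurd h.2 (by decide))
      have h2 : Z.ev (X.np + 1) false kd v w = Dl (sG G false) (sS X.σ false) (X.D i0)
        (del (Fintype.card V) (X.rk i0)) ω c kd v w := if_pos ⟨rfl, rfl⟩
      rw [h1, h2]
      exact hd
  · refine lt_of_le_of_ne (orb_t hchl hT.exi.1) fun h => hT.exi.2.1 ?_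
    rw [← G.t_inj h]
    exact hcD
  · have h1 : u ∉ B := fun h => (hBinn u h).2 hu
    have h2 : Y.phs u = X.phs u := if_neg h1
    have h3 := (hW.phs_rng u hu hui).2
    have h4 : Y.rt (X.phs u) = X.rt (X.phs u) := if_neg (by omega)
    show Y.rt (Y.phs u) = X.rt (X.phs u)
    rw [h2, h4]

theorem phase_step (hr : Rks G rnk) {L R : ℕ} (hL : Fintype.card V ≤ 2 ^ L) (hR : ∀ v, rnk v < R) :
    Pool.Agent.W_a4f561_P13.PhaseStep G rnk (NN L R) :=
  fun _ _ _ _ _ _ hW hP hc _ _ _ _ _ => phase hr hL hR hW hP hc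

end Pool.Agent.W_a4f561_h1
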