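import Pool.Agent.W_a4f561_h1.Phase
import Pool.Agent.W_a4f561_P8.Wire8

/-!
MP_a4f561_co, polylog pages: one phase for all bars (helper1), bars and pages.
-/

set_option autoImplicit false

namespace Pool.Agent.W_a4f561_h1

open Pool.Agent.W_a4f561_P8

theorem phase_all : PhaseAll := by
  intro V _ _ G rnk L _ hc hr hR
  exact phase_step hr hc hR

theorem bars_cb : BarsCB := barsCB_of phase_all

end Pool.Agent.W_a4f561_h1
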